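import Pool.Agent.Helper81.XP.StA

set_option autoImplicit false

/-!
MP_f90738_co, module LEV: level sets of a measure with large energy.
-/

open Finset
open scoped Pointwise

namespace Pool.Agent.Helper30.XP

open Pool.Agent.Helper81.XP

section basic

variable {G : Type} [Group G] [Fintype G]

theorem lev_cv_nonneg {f g : G → ℝ} (hf : ∀ x, 0 ≤ f x) (hg : ∀ x, 0 ≤ g x) (x : G) :
    0 ≤ cv f g x := by
  unfold cv
  exact Finset.sum_nonneg fun y _ => mul_nonneg (hf y) (hg _)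

theorem lev_cv_mono {f g f' g' : G → ℝ} (hf : ∀ x, 0 ≤ f x) (hg : ∀ x, 0 ≤ g x)
    (hff : ∀ x, f x ≤ f' x) (hgg : ∀ x, g x ≤ g' x) (x : G) :
    cv f g x ≤ cv f' g' x := by
  unfold cv
  exact Finset.sum_le_sum fun y _ => mul_le_mul (hff y) (hgg _) (hg _) ((hf y).trans (hff y))

theorem lev_N2_mono {f g : G → ℝ} (hf : ∀ x, 0 ≤ f x) (hfg : ∀ x, f x ≤ g x) : N2 f ≤ N2 g := by
  unfold N2
  exact Finset.sum_le_sum fun x _ => pow_le_pow_left₀ (hf x) (hfg x) 2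

theorem lev_N2_nonneg (f : G → ℝ) : 0 ≤ N2 f := by
  unfold N2
  exact Finset.sum_nonneg fun x _ => sq_nonneg _

/-- weighted Cauchy-Schwarz -/
theorem lev_cs (w f : G → ℝ) (hw : ∀ y, 0 ≤ w y) (hs : ∑ y, w y = 1) :
    (∑ y, w y * f y) ^ 2 ≤ ∑ y, w y * f y ^ 2 := by
  have h0 : 0 ≤ ∑ y, w y * (f y - ∑ z, w z * f z) ^ 2 :=
    Finset.sum_nonneg fun y _ => mul_nonneg (hw y) (sq_nonneg _)
  obtain ⟨S, hS⟩ : ∃ S, S = ∑ z, w z * f z := ⟨_, rfl⟩
  rw [← hS] at h0 ⊢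
  have h1 : ∑ y, w y * (f y - S) ^ 2 = ∑ y, w y * f y ^ 2 - 2 * S * ∑ y, w y * f y +
      S ^ 2 * ∑ y, w y := by
    rw [Finset.mul_sum, Finset.mul_sum, ← Finset.sum_sub_distrib, ← Finset.sum_add_distrib]
    refine Finset.sum_congr rfl fun y _ => ?_
    ring
  rw [h1, hs, ← hS] at h0
  nlinarith [h0]

theorem lev_yng1 (w f : G → ℝ) (hw : ∀ y, 0 ≤ w y) (hs : ∑ y, w y = 1) :
    N2 (cv w f) ≤ N2 f := by
  unfold N2 cv
  calc ∑ x, (∑ y, w y * f (y⁻¹ * x)) ^ 2 ≤ ∑ x, ∑ y, w y * f (y⁻¹ * x) ^ 2 :=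
        Finset.sum_le_sum fun x _ => lev_cs w (fun y => f (y⁻¹ * x)) hw hs
    _ = ∑ y, ∑ x, w y * f (y⁻¹ * x) ^ 2 := Finset.sum_comm
    _ = ∑ y, w y * ∑ x, f x ^ 2 := by
        refine Finset.sum_congr rfl fun y _ => ?_
        rw [← Finset.mul_sum]
        congr 1
        exact Fintype.sum_equiv (Equiv.mulLeft y⁻¹) _ _ fun x => rfl
    _ = ∑ x, f x ^ 2 := by rw [← Finset.sum_mul, hs, one_mul]

theorem lev_yng2 (w f : G → ℝ) (hw : ∀ y, 0 ≤ w y) (hs : ∑ y, w y = 1) :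
    N2 (cv f w) ≤ N2 f := by
  unfold N2 cv
  have hx : ∀ x : G, ∑ y, w (y⁻¹ * x) = 1 := by
    intro x
    rw [← hs]
    exact Fintype.sum_equiv ((Equiv.inv G).trans (Equiv.mulRight x)) _ _ fun y => rfl
  calc ∑ x, (∑ y, f y * w (y⁻¹ * x)) ^ 2 ≤ ∑ x, ∑ y, w (y⁻¹ * x) * f y ^ 2 := by
        refine Finset.sum_le_sum fun x _ => ?_
        have h := lev_cs (fun y => w (y⁻¹ * x)) f (fun y => hw _) (hx x)
        refine le_trans (le_of_eq ?_) h
        congr 1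
        exact Finset.sum_congr rfl fun y _ => mul_comm _ _
    _ = ∑ y, ∑ x, w (y⁻¹ * x) * f y ^ 2 := Finset.sum_comm
    _ = ∑ y, f y ^ 2 := by
        refine Finset.sum_congr rfl fun y _ => ?_
        rw [← Finset.sum_mul]
        have h2 : ∑ x, w (y⁻¹ * x) = 1 := by
          rw [← hs]
          exact Fintype.sum_equiv (Equiv.mulLeft y⁻¹) _ _ fun x => rfl
        rw [h2, one_mul]

theorem lev_split (ν h l : G → ℝ) (hν : ∀ x, ν x = h x + l x) :
    N2 (cv ν ν) ≤ 2 * N2 (cv h h) + 4 * N2 (cv h l) + 4 * N2 (cv l ν) := by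
  have h1 : ∀ x, cv ν ν x = cv h h x + cv h l x + cv l ν x := by
    intro x
    unfold cv
    rw [← Finset.sum_add_distrib, ← Finset.sum_add_distrib]
    refine Finset.sum_congr rfl fun y _ => ?_
    have := hν y
    have := hν (y⁻¹ * x)
    rw [hν y]
    calc (h y + l y) * ν (y⁻¹ * x) = h y * ν (y⁻¹ * x) + l y * ν (y⁻¹ * x) := by ring
      _ = h y * (h (y⁻¹ * x) + l (y⁻¹ * x)) + l y * ν (y⁻¹ * x) := by rw [← this]
      _ = _ := by ring
  unfold N2
  rw [Finset.mul_sum, Finset.mul_sum, Finset.mul_sum, ← Finset.sum_add_distrib,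
    ← Finset.sum_add_distrib]
  refine Finset.sum_le_sum fun x _ => ?_
  rw [h1 x]
  nlinarith [sq_nonneg (cv h h x - (cv h l x + cv l ν x)), sq_nonneg (cv h l x - cv l ν x)]

end basic

section energy

open Classical

variable {G : Type} [Group G] [Fintype G]

/-- indicator function -/
noncomputable def ind (A : Finset G) (x : G) : ℝ := if x ∈ A then 1 else 0

theorem ind_nonneg (A : Finset G) (x : G) : 0 ≤ ind A x := by
  unfold ind; split_ifs <;> norm_num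

/-- number of representations -/
noncomputable def rep (A : Finset G) (g : G) : ℝ := ∑ y, ind A y * ind A (y * g)

theorem rep_inv (A : Finset G) (g : G) : rep A g⁻¹ = rep A g := by
  unfold rep
  refine Fintype.sum_equiv (Equiv.mulRight g⁻¹) _ _ fun y => ?_
  simp only [Equiv.coe_mulRight, inv_mul_cancel_right]
  ring

theorem ind_inv (A : Finset G) (hA : A⁻¹ = A) (x : G) : ind A x⁻¹ = ind A x := by
  have h : x⁻¹ ∈ A ↔ x ∈ A := by
    rw [← Finset.mem_inv', hA]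
  unfold ind
  simp only [h]

theorem rep_symm (A : Finset G) (hA : A⁻¹ = A) (g : G) :
    ∑ b, ind A b * ind A (g * b) = rep A g := by
  rw [← rep_inv]
  unfold rep
  refine Fintype.sum_equiv (Equiv.inv G) _ _ fun b => ?_
  simp only [Equiv.inv_apply]
  rw [ind_inv A hA b]
  congr 1
  rw [← ind_inv A hA (g * b), mul_inv_rev]

theorem N2_cv_ind (A B : Finset G) (hB : B⁻¹ = B) :
    N2 (cv (ind A) (ind B)) = ∑ g, rep A g * rep B g := by
  have h1 : N2 (cv (ind A) (ind B)) =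
      ∑ x, ∑ y, ∑ z, ind A y * ind B (y⁻¹ * x) * (ind A z * ind B (z⁻¹ * x)) := by
    unfold N2 cv
    refine Finset.sum_congr rfl fun x _ => ?_
    rw [sq, Finset.sum_mul_sum]
  have h2 : ∀ z : G, ∑ x, ∑ y, ind A y * ind B (y⁻¹ * x) * (ind A z * ind B (z⁻¹ * x)) =
      ∑ g, ind A z * ind A (z * g) * rep B g := by
    intro z
    rw [Finset.sum_comm]
    refine Fintype.sum_equiv (Equiv.mulLeft z⁻¹) _ _ fun y => ?_
    simp only [Equiv.coe_mulLeft, mul_inv_cancel_left]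
    rw [← rep_symm B hB, Finset.mul_sum]
    refine Fintype.sum_equiv (Equiv.mulLeft y⁻¹) _ _ fun x => ?_
    simp only [Equiv.coe_mulLeft, mul_assoc, mul_inv_cancel_left]
    ring
  rw [h1]
  calc ∑ x, ∑ y, ∑ z, ind A y * ind B (y⁻¹ * x) * (ind A z * ind B (z⁻¹ * x))
      = ∑ x, ∑ z, ∑ y, ind A y * ind B (y⁻¹ * x) * (ind A z * ind B (z⁻¹ * x)) :=
        Finset.sum_congr rfl fun x _ => Finset.sum_comm
    _ = ∑ z, ∑ x, ∑ y, ind A y * ind B (y⁻¹ * x) * (ind A z * ind B (z⁻¹ * x)) :=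
        Finset.sum_comm
    _ = ∑ z, ∑ g, ind A z * ind A (z * g) * rep B g := Finset.sum_congr rfl fun z _ => h2 z
    _ = ∑ g, ∑ z, ind A z * ind A (z * g) * rep B g := Finset.sum_comm
    _ = ∑ g, rep A g * rep B g := by
        refine Finset.sum_congr rfl fun g _ => ?_
        rw [← Finset.sum_mul]
        rfl

theorem cv_ind_eq (A : Finset G) (x : G) :
    cv (ind A) (ind A) x = ∑ p ∈ A ×ˢ A, if p.1 * p.2 = x then (1 : ℝ) else 0 := by
  unfold cv
  rw [Finset.sum_product]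
  have h0 : ∀ y, ind A y * ind A (y⁻¹ * x) = if y ∈ A then ind A (y⁻¹ * x) else 0 := by
    intro y
    unfold ind
    split_ifs <;> simp
  rw [Finset.sum_congr rfl fun y _ => h0 y, Finset.sum_ite_mem, Finset.univ_inter]
  refine Finset.sum_congr rfl fun y _ => ?_
  unfold ind
  have h1 : ∀ z ∈ A, (if y * z = x then (1 : ℝ) else 0) = if z = y⁻¹ * x then 1 else 0 := by
    intro z _
    have : y * z = x ↔ z = y⁻¹ * x := by rw [eq_inv_mul_iff_mul_eq]
    simp only [this]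
  rw [Finset.sum_congr rfl h1, Finset.sum_ite_eq']

theorem En_eq (A : Finset G) : (En A : ℝ) = N2 (cv (ind A) (ind A)) := by
  have h1 : N2 (cv (ind A) (ind A)) = ∑ p ∈ A ×ˢ A, ∑ q ∈ A ×ˢ A,
      if p.1 * p.2 = q.1 * q.2 then (1 : ℝ) else 0 := by
    unfold N2
    calc ∑ x, cv (ind A) (ind A) x ^ 2 = ∑ x, ∑ p ∈ A ×ˢ A, ∑ q ∈ A ×ˢ A,
          (if p.1 * p.2 = x then (1 : ℝ) else 0) * (if q.1 * q.2 = x then (1 : ℝ) else 0) := by
          refine Finset.sum_congr rfl fun x _ => ?_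
          rw [cv_ind_eq, sq, Finset.sum_mul_sum]
      _ = ∑ p ∈ A ×ˢ A, ∑ x, ∑ q ∈ A ×ˢ A,
          (if p.1 * p.2 = x then (1 : ℝ) else 0) * (if q.1 * q.2 = x then (1 : ℝ) else 0) :=
          Finset.sum_comm
      _ = ∑ p ∈ A ×ˢ A, ∑ q ∈ A ×ˢ A, ∑ x,
          (if p.1 * p.2 = x then (1 : ℝ) else 0) * (if q.1 * q.2 = x then (1 : ℝ) else 0) :=
          Finset.sum_congr rfl fun p _ => Finset.sum_comm
      _ = _ := by
          refine Finset.sum_congr rfl fun p _ => Finset.sum_congr rfl fun q _ => ?_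
          simp only [ite_mul, one_mul, zero_mul, Finset.sum_ite_eq, Finset.mem_univ, if_true]
          by_cases h : p.1 * p.2 = q.1 * q.2
          · rw [if_pos h, if_pos h.symm]
          · rw [if_neg h, if_neg (fun h' => h h'.symm)]
  rw [h1, En, Finset.card_filter]
  push_cast
  rw [Finset.sum_product, Finset.sum_product]
  refine Finset.sum_congr rfl fun a _ => ?_
  rw [Finset.sum_product]

theorem En_sq (A B : Finset G) (hA : A⁻¹ = A) (hB : B⁻¹ = B) :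
    N2 (cv (ind A) (ind B)) ^ 2 ≤ (En A : ℝ) * (En B : ℝ) := by
  rw [En_eq, En_eq, N2_cv_ind A B hB, N2_cv_ind A A hA, N2_cv_ind B B hB]
  have h := Finset.sum_mul_sq_le_sq_mul_sq (Finset.univ : Finset G) (rep A) (rep B)
  simpa only [sq] using h

theorem En_le (A : Finset G) : (En A : ℝ) ≤ (A.card : ℝ) ^ 3 := by
  have h : En A ≤ (A ×ˢ A ×ˢ A).card := by
    unfold En
    refine Finset.card_le_card_of_injOn (fun q => (q.1, q.2.1, q.2.2.1)) ?_ ?_
    · intro q hq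
      simp only [Finset.coe_filter, Finset.mem_product, Set.mem_ofPred_eq, Finset.coe_product,
        Set.mem_prod, Finset.mem_coe] at hq ⊢
      exact ⟨hq.1.1, hq.1.2.1, hq.1.2.2.1⟩
    · rintro ⟨a, b, c, d⟩ hq ⟨a', b', c', d'⟩ hq' he
      simp only [Finset.coe_filter, Finset.mem_product, Set.mem_ofPred_eq] at hq hq'
      simp only [Prod.mk.injEq] at he ⊢
      obtain ⟨h1, h2, h3⟩ := he
      subst h1 h2 h3
      refine ⟨rfl, rfl, rfl, ?_⟩
      exact mul_left_cancel (hq.2.symm.trans hq'.2)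
  calc (En A : ℝ) ≤ ((A ×ˢ A ×ˢ A).card : ℝ) := by exact_mod_cast h
    _ = (A.card : ℝ) ^ 3 := by
      rw [Finset.card_product, Finset.card_product]; push_cast; ring

end energy

section levels

open Classical

variable {G : Type} [Group G] [Fintype G]

/-- level set -/
noncomputable def lvl (ν : G → ℝ) (α : ℝ) : Finset G := univ.filter fun x => α ≤ ν x ∧ ν x < 2 * α

theorem mem_lvl (ν : G → ℝ) (α : ℝ) (x : G) : x ∈ lvl ν α ↔ α ≤ ν x ∧ ν x < 2 * α := by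
  simp [lvl]

theorem lvl_inv (ν : G → ℝ) (hν : ∀ x, ν x⁻¹ = ν x) (α : ℝ) : (lvl ν α)⁻¹ = lvl ν α := by
  ext x
  rw [Finset.mem_inv', mem_lvl, mem_lvl, hν]

/-- the final step: one level set with large energy -/
theorem lev_final (ν : G → ℝ) (hν : SP ν) (K1 α : ℝ) (hK1 : 0 < K1) (hα : 0 < α)
    (hm : 0 < N2 ν) (h : N2 ν ≤ K1 ^ 2 * (16 * α ^ 4 * (En (lvl ν α) : ℝ))) :
    (lvl ν α).Nonempty ∧
    ((lvl ν α).card : ℝ) ^ 3 ≤ 16 * K1 ^ 2 * (En (lvl ν α) : ℝ) ∧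
    (∀ x ∈ lvl ν α, 1 ≤ 4 * K1 * ((lvl ν α).card : ℝ) * ν x) ∧
    ((lvl ν α).card : ℝ) * N2 ν ≤ 16 * K1 ^ 2 := by
  obtain ⟨hν0, hν1, hνi⟩ := hν
  obtain ⟨A, hA⟩ : ∃ A, A = lvl ν α := ⟨_, rfl⟩
  have hmem : ∀ x ∈ A, α ≤ ν x := by
    intro x hx
    rw [hA, mem_lvl] at hx
    exact hx.1
  rw [← hA] at h ⊢
  obtain ⟨m, hmm⟩ : ∃ m, m = N2 ν := ⟨_, rfl⟩
  rw [← hmm] at h hm ⊢
  obtain ⟨c, hc⟩ : ∃ c : ℝ, c = (A.card : ℝ) := ⟨_, rfl⟩
  have hc0 : 0 ≤ c := by rw [hc]; positivity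
  have h1 : α * c ≤ 1 := by
    calc α * c = ∑ x ∈ A, α := by rw [Finset.sum_const, nsmul_eq_mul, hc]; ring
      _ ≤ ∑ x ∈ A, ν x := Finset.sum_le_sum fun x hx => hmem x hx
      _ ≤ ∑ x, ν x := Finset.sum_le_univ_sum_of_nonneg fun x => hν0 x
      _ = 1 := hν1
  have h2 : α ^ 2 * c ≤ m := by
    calc α ^ 2 * c = ∑ x ∈ A, α ^ 2 := by rw [Finset.sum_const, nsmul_eq_mul, hc]; ring
      _ ≤ ∑ x ∈ A, ν x ^ 2 := Finset.sum_le_sum fun x hx =>
          pow_le_pow_left₀ hα.le (hmem x hx) 2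
      _ ≤ ∑ x, ν x ^ 2 := Finset.sum_le_univ_sum_of_nonneg fun x => sq_nonneg _
      _ = m := by rw [hmm, N2]
  have h3 : (En A : ℝ) ≤ c ^ 3 := by rw [hc]; exact En_le A
  have hE0 : (0 : ℝ) ≤ (En A : ℝ) := by positivity
  obtain ⟨E, hE⟩ : ∃ E : ℝ, E = (En A : ℝ) := ⟨_, rfl⟩
  rw [← hE] at h h3 hE0 ⊢
  rw [← hc]
  have hac : 0 ≤ α * c := mul_nonneg hα.le hc0
  have hac2 : (α * c) ^ 2 ≤ 1 := pow_le_one₀ hac h1
  have hne : A.Nonempty := by
    rw [Finset.nonempty_iff_ne_empty]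
    intro he
    rw [he, Finset.card_empty, Nat.cast_zero] at hc
    rw [hc] at h3
    have : E = 0 := le_antisymm (by linarith [h3]) hE0
    rw [this] at h
    linarith
  refine ⟨hne, ?_, ?_, ?_⟩
  · -- (b)
    have h4 : α ^ 4 * c ^ 3 ≤ m := by
      calc α ^ 4 * c ^ 3 = (α ^ 2 * c) * (α * c) ^ 2 := by ring
        _ ≤ m * 1 := mul_le_mul h2 hac2 (sq_nonneg _) hm.le
        _ = m := mul_one m
    have h5 : α ^ 4 * c ^ 3 ≤ α ^ 4 * (16 * K1 ^ 2 * E) := by
      calc α ^ 4 * c ^ 3 ≤ m := h4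
        _ ≤ K1 ^ 2 * (16 * α ^ 4 * E) := h
        _ = α ^ 4 * (16 * K1 ^ 2 * E) := by ring
    exact le_of_mul_le_mul_left h5 (by positivity)
  · -- (a)
    have h4 : m * 1 ≤ m * (4 * K1 * (α * c)) ^ 2 := by
      calc m * 1 = m := mul_one m
        _ ≤ K1 ^ 2 * (16 * α ^ 4 * E) := h
        _ ≤ K1 ^ 2 * (16 * α ^ 4 * c ^ 3) := by
            have : 16 * α ^ 4 * E ≤ 16 * α ^ 4 * c ^ 3 :=
              mul_le_mul_of_nonneg_left h3 (by positivity)
            exact mul_le_mul_of_nonneg_left this (by positivity)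
        _ = (α ^ 2 * c) * (4 * K1 * (α * c)) ^ 2 := by ring
        _ ≤ m * (4 * K1 * (α * c)) ^ 2 := mul_le_mul_of_nonneg_right h2 (sq_nonneg _)
    have h5 : 1 ≤ (4 * K1 * (α * c)) ^ 2 := le_of_mul_le_mul_left h4 hm
    have h6 : 1 ≤ 4 * K1 * (α * c) := by
      by_contra hlt
      push Not at hlt
      have h7 : 0 ≤ 4 * K1 * (α * c) := by positivity
      have h8 : (4 * K1 * (α * c)) ^ 2 < 1 := by
        nlinarith [h7, hlt]
      linarith
    intro x hx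
    calc 1 ≤ 4 * K1 * (α * c) := h6
      _ = 4 * K1 * c * α := by ring
      _ ≤ 4 * K1 * c * ν x := mul_le_mul_of_nonneg_left (hmem x hx) (by positivity)
  · -- (c)
    calc c * m ≤ c * (K1 ^ 2 * (16 * α ^ 4 * E)) := mul_le_mul_of_nonneg_left h hc0
      _ = 16 * K1 ^ 2 * (α ^ 4 * c * E) := by ring
      _ ≤ 16 * K1 ^ 2 * (α ^ 4 * c * c ^ 3) := by
          have : α ^ 4 * c * E ≤ α ^ 4 * c * c ^ 3 :=
            mul_le_mul_of_nonneg_left h3 (by positivity)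
          exact mul_le_mul_of_nonneg_left this (by positivity)
      _ = 16 * K1 ^ 2 * ((α * c) ^ 2 * (α * c) ^ 2) := by ring
      _ ≤ 16 * K1 ^ 2 * (1 * 1) := by
          have : (α * c) ^ 2 * (α * c) ^ 2 ≤ 1 * 1 :=
            mul_le_mul hac2 hac2 (sq_nonneg _) zero_le_one
          exact mul_le_mul_of_nonneg_left this (by positivity)
      _ = 16 * K1 ^ 2 := by ring

/-- the convolution of a combination of indicators -/
theorem lev_comb (I : ℕ) (a : ℕ → ℝ) (A : ℕ → Finset G) (c : ℝ)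
    (h : ∀ i < I, ∀ j < I, (a i * a j) ^ 2 * N2 (cv (ind (A i)) (ind (A j))) ≤ c) :
    N2 (cv (fun x => ∑ i ∈ range I, a i * ind (A i) x) (fun x => ∑ i ∈ range I, a i * ind (A i) x))
      ≤ ((I : ℝ) ^ 2) ^ 2 * c := by
  have h1 : ∀ x, cv (fun x => ∑ i ∈ range I, a i * ind (A i) x)
      (fun x => ∑ i ∈ range I, a i * ind (A i) x) x =
      ∑ p ∈ range I ×ˢ range I, (a p.1 * a p.2) * cv (ind (A p.1)) (ind (A p.2)) x := by
    intro x
    unfold cv
    calc ∑ y, (∑ i ∈ range I, a i * ind (A i) y) * ∑ i ∈ range I, a i * ind (A i) (y⁻¹ * x)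
        = ∑ y, ∑ p ∈ range I ×ˢ range I,
            (a p.1 * ind (A p.1) y) * (a p.2 * ind (A p.2) (y⁻¹ * x)) := by
          refine Finset.sum_congr rfl fun y _ => ?_
          rw [Finset.sum_mul_sum, Finset.sum_product]
      _ = ∑ p ∈ range I ×ˢ range I, ∑ y,
            (a p.1 * ind (A p.1) y) * (a p.2 * ind (A p.2) (y⁻¹ * x)) := Finset.sum_comm
      _ = _ := by
          refine Finset.sum_congr rfl fun p _ => ?_
          rw [Finset.mul_sum]
          refine Finset.sum_congr rfl fun y _ => ?_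
          ring
  have h2 : ∀ p ∈ range I ×ˢ range I,
      ∑ x, ((a p.1 * a p.2) * cv (ind (A p.1)) (ind (A p.2)) x) ^ 2 ≤ c := by
    intro p hp
    rw [Finset.mem_product, Finset.mem_range, Finset.mem_range] at hp
    refine le_trans (le_of_eq ?_) (h p.1 hp.1 p.2 hp.2)
    unfold N2
    rw [Finset.mul_sum]
    refine Finset.sum_congr rfl fun x _ => ?_
    ring
  have hcard : (((range I ×ˢ range I).card : ℕ) : ℝ) = (I : ℝ) ^ 2 := by
    rw [Finset.card_product, Finset.card_range]; push_cast; ring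
  unfold N2
  calc ∑ x, cv (fun x => ∑ i ∈ range I, a i * ind (A i) x)
          (fun x => ∑ i ∈ range I, a i * ind (A i) x) x ^ 2
      ≤ ∑ x, (((range I ×ˢ range I).card : ℕ) : ℝ) * ∑ p ∈ range I ×ˢ range I,
          ((a p.1 * a p.2) * cv (ind (A p.1)) (ind (A p.2)) x) ^ 2 := by
        refine Finset.sum_le_sum fun x _ => ?_
        rw [h1 x]
        exact sq_sum_le_card_mul_sum_sq
    _ = (I : ℝ) ^ 2 * ∑ p ∈ range I ×ˢ range I, ∑ x,
          ((a p.1 * a p.2) * cv (ind (A p.1)) (ind (A p.2)) x) ^ 2 := by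
        rw [← Finset.mul_sum, Finset.sum_comm, hcard]
    _ ≤ (I : ℝ) ^ 2 * ∑ p ∈ range I ×ˢ range I, c :=
        mul_le_mul_of_nonneg_left (Finset.sum_le_sum h2) (by positivity)
    _ = ((I : ℝ) ^ 2) ^ 2 * c := by
        rw [Finset.sum_const, nsmul_eq_mul, hcard]; ring

theorem st_LEV : ST_LEV := by
  intro G _ _ ν hν K L hK hL hN
  have hν' := hν
  obtain ⟨hν0, hν1, hνi⟩ := hν'
  have hle1 : ∀ x, ν x ≤ 1 := by
    intro x
    rw [← hν1]
    exact Finset.single_le_sum (f := ν) (fun y _ => hν0 y) (Finset.mem_univ x)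
  have hm : 0 < N2 ν := by
    have hne : ∃ x, ν x ≠ 0 := by
      by_contra hcon
      push Not at hcon
      rw [Finset.sum_congr rfl fun x _ => hcon x, Finset.sum_const_zero] at hν1
      exact zero_ne_one hν1
    obtain ⟨x, hx⟩ := hne
    unfold N2
    exact Finset.sum_pos' (fun y _ => sq_nonneg _) ⟨x, Finset.mem_univ x, by positivity⟩
  have hm1 : N2 ν ≤ 1 := by
    rw [← hν1]
    unfold N2
    refine Finset.sum_le_sum fun x _ => ?_
    nlinarith [hν0 x, hle1 x]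
  obtain ⟨m, hmm⟩ : ∃ m, m = N2 ν := ⟨_, rfl⟩
  rw [← hmm] at hL hN hm hm1
  have hK0 : 0 < K := by linarith
  obtain ⟨β, hβ⟩ : ∃ β : ℝ, β = m / (16 * K ^ 2) := ⟨_, rfl⟩
  have hβ0 : 0 < β := by rw [hβ]; positivity
  have hβm : 16 * K ^ 2 * β = m := by rw [hβ]; field_simp
  have hβ1 : β ≤ 1 := by
    nlinarith [hβm, hK, mul_pos hK0 hK0, mul_self_nonneg (K - 1)]
  have hinv : 16 * K ^ 2 / m = 1 / β := by rw [hβ]; field_simp
  rw [hinv] at hL
  have hlog0 : 0 ≤ Real.logb 2 (1 / β) := by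
    apply Real.logb_nonneg (by norm_num)
    rw [le_div_iff₀ hβ0]; linarith
  obtain ⟨I, hI⟩ : ∃ I : ℕ, I = ⌊Real.logb 2 (1 / β)⌋₊ + 1 := ⟨_, rfl⟩
  have hIL : (I : ℝ) ≤ L := by
    rw [hI]
    push_cast
    have := Nat.floor_le hlog0
    linarith
  -- every value at least `β` lies in one of the levels
  have hlev : ∀ x, β ≤ ν x → ∃ i < I, x ∈ lvl ν (2 ^ i * β) := by
    intro x hx
    have h1 : 1 ≤ ν x / β := by rw [le_div_iff₀ hβ0]; linarith
    obtain ⟨i, hi1, hi2⟩ := exists_nat_pow_near h1 (by norm_num : (1 : ℝ) < 2)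
    rw [le_div_iff₀ hβ0] at hi1
    rw [div_lt_iff₀ hβ0] at hi2
    refine ⟨i, ?_, ?_⟩
    · rw [hI, Nat.lt_succ_iff]
      apply Nat.le_floor
      rw [Real.le_logb_iff_rpow_le (by norm_num) (by positivity)]
      rw [Real.rpow_natCast, le_div_iff₀ hβ0]
      exact hi1.trans (hle1 x)
    · rw [mem_lvl]
      refine ⟨hi1, ?_⟩
      calc ν x < 2 ^ (i + 1) * β := hi2
        _ = 2 * (2 ^ i * β) := by ring
  -- the split into the high and the low part
  obtain ⟨h, hh⟩ : ∃ h : G → ℝ, h = fun x => if β ≤ ν x then ν x else 0 := ⟨_, rfl⟩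
  obtain ⟨l, hl⟩ : ∃ l : G → ℝ, l = fun x => if β ≤ ν x then 0 else ν x := ⟨_, rfl⟩
  have hsum : ∀ x, ν x = h x + l x := by
    intro x
    rw [hh, hl]
    by_cases hx : β ≤ ν x
    · simp only [hx, if_true, add_zero]
    · simp only [hx, if_false, zero_add]
  have hh0 : ∀ x, 0 ≤ h x := by
    intro x; rw [hh]; dsimp only; split_ifs <;> [exact hν0 x; exact le_rfl]
  have hl0 : ∀ x, 0 ≤ l x := by
    intro x; rw [hl]; dsimp only; split_ifs <;> [exact le_rfl; exact hν0 x]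
  have hhν : ∀ x, h x ≤ ν x := by intro x; rw [hsum x]; linarith [hl0 x]
  have hNl : N2 l ≤ β := by
    calc N2 l ≤ ∑ x, β * ν x := by
          unfold N2
          refine Finset.sum_le_sum fun x _ => ?_
          rw [hl]
          dsimp only
          split_ifs with hx
          · have := mul_nonneg hβ0.le (hν0 x)
            simpa using this
          · push Not at hx
            nlinarith [hν0 x]
      _ = β := by rw [← Finset.mul_sum, hν1, mul_one]
  have hsplit := lev_split ν h l hsum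
  have h1 : N2 (cv h l) ≤ β := by
    calc N2 (cv h l) ≤ N2 (cv ν l) := by
          refine lev_N2_mono (lev_cv_nonneg hh0 hl0) ?_
          exact lev_cv_mono hh0 hl0 hhν fun x => le_rfl
      _ ≤ N2 l := lev_yng1 ν l hν0 hν1
      _ ≤ β := hNl
  have h2 : N2 (cv l ν) ≤ β := (lev_yng2 ν l hν0 hν1).trans hNl
  have h3 : m ≤ 4 * K ^ 2 * N2 (cv h h) := by
    have e1 : K ^ 2 * N2 (cv ν ν) ≤ K ^ 2 * (2 * N2 (cv h h) + 4 * β + 4 * β) := by
      apply mul_le_mul_of_nonneg_left _ (sq_nonneg K)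
      linarith
    nlinarith [e1, hN, hβm]
  -- comparison with the combination of indicators
  have h4 : N2 (cv h h) ≤ N2 (cv (fun x => ∑ i ∈ range I, (2 * (2 ^ i * β)) * ind (lvl ν (2 ^ i * β)) x)
      (fun x => ∑ i ∈ range I, (2 * (2 ^ i * β)) * ind (lvl ν (2 ^ i * β)) x)) := by
    have hcmp : ∀ x, h x ≤ ∑ i ∈ range I, (2 * (2 ^ i * β)) * ind (lvl ν (2 ^ i * β)) x := by
      intro x
      have hnn : ∀ i ∈ range I, 0 ≤ (2 * (2 ^ i * β)) * ind (lvl ν (2 ^ i * β)) x := by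
        intro i _
        exact mul_nonneg (by positivity) (ind_nonneg _ _)
      by_cases hx : β ≤ ν x
      · obtain ⟨i, hi, hxi⟩ := hlev x hx
        refine le_trans ?_ (Finset.single_le_sum hnn (Finset.mem_range.2 hi))
        have : ind (lvl ν (2 ^ i * β)) x = 1 := by unfold ind; rw [if_pos hxi]
        rw [this, mul_one]
        rw [mem_lvl] at hxi
        exact (hhν x).trans hxi.2.le
      · have : h x = 0 := by rw [hh]; dsimp only; rw [if_neg hx]
        rw [this]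
        exact Finset.sum_nonneg hnn
    exact lev_N2_mono (lev_cv_nonneg hh0 hh0) (lev_cv_mono hh0 hh0 hcmp hcmp)
  have hL0 : 2 ≤ L := by linarith
  obtain ⟨K1, hK1⟩ : ∃ K1 : ℝ, K1 = 2 * K * L ^ 2 := ⟨_, rfl⟩
  have hK10 : 0 < K1 := by rw [hK1]; positivity
  rw [← hK1, ← hmm]
  -- a good level
  have hex : ∃ i, m ≤ K1 ^ 2 * (16 * (2 ^ i * β) ^ 4 * (En (lvl ν (2 ^ i * β)) : ℝ)) := by
    by_contra hcon
    push Not at hcon
    -- all the terms are small
    obtain ⟨E, hE⟩ : ∃ E : ℕ → ℝ, E = fun i => 16 * (2 ^ i * β) ^ 4 *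
      (En (lvl ν (2 ^ i * β)) : ℝ) := ⟨_, rfl⟩
    have hE0 : ∀ i, 0 ≤ E i := by intro i; rw [hE]; positivity
    have hEc : ∀ i, E i < m / K1 ^ 2 := by
      intro i
      rw [lt_div_iff₀ (by positivity), hE]
      linarith [hcon i]
    -- the maximum of the finitely many values
    have hEmax : ∃ e : ℝ, 0 ≤ e ∧ e < m / K1 ^ 2 ∧ ∀ i < I, E i ≤ e := by
      have hne : (range I).Nonempty := ⟨0, Finset.mem_range.2 (by rw [hI]; omega)⟩
      obtain ⟨i0, hi0, hmax⟩ := Finset.exists_max_image (range I) E hne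
      exact ⟨E i0, hE0 i0, hEc i0, fun i hi => hmax i (Finset.mem_range.2 hi)⟩
    obtain ⟨e, he0, hec, hele⟩ := hEmax
    have hterm : ∀ i < I, ∀ j < I, ((2 * (2 ^ i * β)) * (2 * (2 ^ j * β))) ^ 2 *
        N2 (cv (ind (lvl ν (2 ^ i * β))) (ind (lvl ν (2 ^ j * β)))) ≤ e := by
      intro i hi j hj
      have hsq : (((2 * (2 ^ i * β)) * (2 * (2 ^ j * β))) ^ 2 *
        N2 (cv (ind (lvl ν (2 ^ i * β))) (ind (lvl ν (2 ^ j * β))))) ^ 2 ≤ e ^ 2 := by
        have hs := En_sq (lvl ν (2 ^ i * β)) (lvl ν (2 ^ j * β)) (lvl_inv ν hνi _)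
          (lvl_inv ν hνi _)
        calc _ = (((2 * (2 ^ i * β)) * (2 * (2 ^ j * β))) ^ 2) ^ 2 *
              N2 (cv (ind (lvl ν (2 ^ i * β))) (ind (lvl ν (2 ^ j * β)))) ^ 2 := by ring
          _ ≤ (((2 * (2 ^ i * β)) * (2 * (2 ^ j * β))) ^ 2) ^ 2 *
              ((En (lvl ν (2 ^ i * β)) : ℝ) * (En (lvl ν (2 ^ j * β)) : ℝ)) :=
              mul_le_mul_of_nonneg_left hs (by positivity)
          _ = E i * E j := by rw [hE]; ring
          _ ≤ e * e := mul_le_mul (hele i hi) (hele j hj) (hE0 j) he0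
          _ = e ^ 2 := by ring
      exact le_of_sq_le_sq hsq he0
    have hc := lev_comb I (fun i => 2 * (2 ^ i * β)) (fun i => lvl ν (2 ^ i * β)) e hterm
    have h5 : m ≤ 4 * K ^ 2 * (((I : ℝ) ^ 2) ^ 2 * e) :=
      h3.trans (mul_le_mul_of_nonneg_left (h4.trans hc) (by positivity))
    have h6 : ((I : ℝ) ^ 2) ^ 2 ≤ (L ^ 2) ^ 2 :=
      pow_le_pow_left₀ (by positivity) (pow_le_pow_left₀ (by positivity) hIL 2) 2
    have h7 : m ≤ K1 ^ 2 * e := by
      calc m ≤ 4 * K ^ 2 * (((I : ℝ) ^ 2) ^ 2 * e) := h5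
        _ ≤ 4 * K ^ 2 * ((L ^ 2) ^ 2 * e) := by
            apply mul_le_mul_of_nonneg_left _ (by positivity)
            exact mul_le_mul_of_nonneg_right h6 he0
        _ = K1 ^ 2 * e := by rw [hK1]; ring
    have h8 : K1 ^ 2 * e < K1 ^ 2 * (m / K1 ^ 2) :=
      mul_lt_mul_of_pos_left hec (by positivity)
    have h9 : K1 ^ 2 * (m / K1 ^ 2) = m := by field_simp
    linarith
  obtain ⟨i, hi⟩ := hex
  obtain ⟨r1, r2, r3, r4⟩ := lev_final ν hν K1 (2 ^ i * β) hK10 (by positivity)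
    (by rw [← hmm]; exact hm) (by rw [← hmm]; exact hi)
  rw [← hmm] at r4
  exact ⟨lvl ν (2 ^ i * β), r1, lvl_inv ν hνi _, r2, r3, r4⟩

end levels

end Pool.Agent.Helper30.XP
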